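import Mathlib
import Pool.Agent.HuaDom91.JordanF

/-!
# Ultraproducts of Hua systems
-/

set_option autoImplicit false

namespace Pool.Agent.HuaUltra87

open Pool.Agent.HuaVal

section

variable {ι : Type} (l : Ultrafilter ι) (A : ι → Type) [∀ i, AddCommGroup (A i)]

/-- the families which vanish almost everywhere -/
def Nul : AddSubgroup (∀ i, A i) where
  carrier := {f | ∀ᶠ i in (l : Filter ι), f i = 0}
  zero_mem' := Filter.Eventually.of_forall fun _ => rfl
  add_mem' := by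
    intro f g hf hg
    filter_upwards [hf, hg] with i h1 h2
    rw [Pi.add_apply, h1, h2, add_zero]
  neg_mem' := by
    intro f hf
    filter_upwards [hf] with i h1
    rw [Pi.neg_apply, h1, neg_zero]

/-- the ultraproduct of the groups `A i` -/
abbrev UPr : Type := (∀ i, A i) ⧸ Nul l A

variable {A}

/-- the class of a family -/
def mk (f : ∀ i, A i) : UPr l A := QuotientAddGroup.mk f

lemma mk_eq {f g : ∀ i, A i} : mk l f = mk l g ↔ ∀ᶠ i in (l : Filter ι), f i = g i := by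
  rw [mk, mk, QuotientAddGroup.eq]
  constructor
  · intro h
    have h' : ∀ᶠ i in (l : Filter ι), (-f + g) i = 0 := h
    filter_upwards [h'] with i hi
    rw [Pi.add_apply, Pi.neg_apply] at hi
    exact (neg_add_eq_zero.mp hi)
  · intro h
    show ∀ᶠ i in (l : Filter ι), (-f + g) i = 0
    filter_upwards [h] with i hi
    rw [Pi.add_apply, Pi.neg_apply, hi, neg_add_cancel]

lemma mk_surj (x : UPr l A) : ∃ f, mk l f = x := QuotientAddGroup.mk_surjective x

lemma mk_add (f g : ∀ i, A i) : mk l f + mk l g = mk l (fun i => f i + g i) := rfl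

lemma mk_sub (f g : ∀ i, A i) : mk l f - mk l g = mk l (fun i => f i - g i) := rfl

lemma mk_neg (f : ∀ i, A i) : -mk l f = mk l (fun i => -f i) := rfl

lemma mk_nsmul (n : ℕ) (f : ∀ i, A i) : n • mk l f = mk l (fun i => n • f i) := rfl

lemma zero_mk : (0 : UPr l A) = mk l (fun _ => 0) := rfl

lemma mk_eq_zero {f : ∀ i, A i} : mk l f = 0 ↔ ∀ᶠ i in (l : Filter ι), f i = 0 := by
  rw [zero_mk, mk_eq]

lemma mk_ne_zero {f : ∀ i, A i} : mk l f ≠ 0 ↔ ∀ᶠ i in (l : Filter ι), f i ≠ 0 := by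
  rw [ne_eq, mk_eq_zero, ← Ultrafilter.eventually_not]

lemma mk_ne {f g : ∀ i, A i} : mk l f ≠ mk l g ↔ ∀ᶠ i in (l : Filter ι), f i ≠ g i := by
  rw [ne_eq, mk_eq, ← Ultrafilter.eventually_not]

/-- a family of binary operations on the ultraproduct -/
def JP (J : ∀ i, A i → A i → A i) : UPr l A → UPr l A → UPr l A :=
  Quotient.map₂ (fun f g i => J i (f i) (g i)) (by
    intro f f' hf g g' hg
    have hf' : mk l f = mk l f' := Quotient.sound hf
    have hg' : mk l g = mk l g' := Quotient.sound hg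
    rw [mk_eq] at hf' hg'
    have h : mk l (fun i => J i (f i) (g i)) = mk l (fun i => J i (f' i) (g' i)) := by
      rw [mk_eq]
      filter_upwards [hf', hg'] with i h1 h2
      rw [h1, h2]
    exact Quotient.exact h)

lemma JP_mk (J : ∀ i, A i → A i → A i) (f g : ∀ i, A i) :
    JP l J (mk l f) (mk l g) = mk l (fun i => J i (f i) (g i)) := rfl

theorem jsys {J : ∀ i, A i → A i → A i} (hJ : ∀ i, JSys (J i)) : JSys (JP l J) := by
  constructor
  · intro a hf
    obtain ⟨f, rfl⟩ := mk_surj l a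
    rw [zero_mk, JP_mk, mk_eq]
    filter_upwards [(mk_ne_zero l).mp hf] with i h
    exact (hJ i).zero _ h
  · intro a x hf
    obtain ⟨f, rfl⟩ := mk_surj l a
    obtain ⟨g, rfl⟩ := mk_surj l x
    rw [JP_mk, JP_mk, mk_eq]
    filter_upwards [(mk_ne_zero l).mp hf] with i h
    exact (hJ i).inv _ _ h
  · intro a hf
    obtain ⟨f, rfl⟩ := mk_surj l a
    rw [JP_mk, mk_eq]
    filter_upwards [(mk_ne_zero l).mp hf] with i h
    exact (hJ i).self _ h
  · intro a b x y hf hg
    obtain ⟨f, rfl⟩ := mk_surj l a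
    obtain ⟨g, rfl⟩ := mk_surj l b
    obtain ⟨u, rfl⟩ := mk_surj l x
    obtain ⟨v, rfl⟩ := mk_surj l y
    simp only [JP_mk, mk_add]
    rw [mk_eq]
    filter_upwards [(mk_ne_zero l).mp hf, (mk_ne_zero l).mp hg] with i h1 h2
    exact (hJ i).add _ _ _ _ h1 h2
  · intro a x hf
    obtain ⟨f, rfl⟩ := mk_surj l a
    obtain ⟨g, rfl⟩ := mk_surj l x
    simp only [JP_mk, mk_neg]
    rw [mk_eq]
    filter_upwards [(mk_ne_zero l).mp hf] with i h
    exact (hJ i).neg _ _ h
  · intro a x hf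
    obtain ⟨f, rfl⟩ := mk_surj l a
    obtain ⟨g, rfl⟩ := mk_surj l x
    simp only [JP_mk, mk_neg]
    rw [mk_eq]
    filter_upwards [(mk_ne_zero l).mp hf] with i h
    exact (hJ i).negl _ _ h
  · intro a b x hf hg
    obtain ⟨f, rfl⟩ := mk_surj l a
    obtain ⟨g, rfl⟩ := mk_surj l b
    obtain ⟨u, rfl⟩ := mk_surj l x
    simp only [JP_mk]
    rw [mk_eq]
    filter_upwards [(mk_ne_zero l).mp hf, (mk_ne_zero l).mp hg] with i h1 h2
    exact (hJ i).comp _ _ _ h1 h2
  · intro e x y hf hg hu hgu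
    obtain ⟨f, rfl⟩ := mk_surj l e
    obtain ⟨g, rfl⟩ := mk_surj l x
    obtain ⟨u, rfl⟩ := mk_surj l y
    simp only [JP_mk, mk_sub]
    rw [mk_eq]
    filter_upwards [(mk_ne_zero l).mp hf, (mk_ne_zero l).mp hg, (mk_ne_zero l).mp hu,
      (mk_ne l).mp hgu] with i h1 h2 h3 h4
    exact (hJ i).hua _ _ _ h1 h2 h3 h4
  · intro a b x hf hg hfg
    obtain ⟨f, rfl⟩ := mk_surj l a
    obtain ⟨g, rfl⟩ := mk_surj l b
    obtain ⟨u, rfl⟩ := mk_surj l x
    simp only [JP_mk, mk_sub]
    rw [mk_eq]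
    filter_upwards [(mk_ne_zero l).mp hf, (mk_ne_zero l).mp hg, (mk_ne l).mp hfg] with i h1 h2 h3
    exact (hJ i).sub _ _ _ h1 h2 h3

lemma H_mk (J : ∀ i, A i → A i → A i) (e x y : ∀ i, A i) :
    H (JP l J) (mk l e) (mk l x) (mk l y) = mk l (fun i => H (J i) (e i) (x i) (y i)) := by
  by_cases hx : mk l x = 0
  · rw [hx, H_zero_left, eq_comm, mk_eq_zero]
    filter_upwards [(mk_eq_zero l).mp hx] with i hi
    rw [hi, H_zero_left]
  · rw [H_of_ne hx, JP_mk, JP_mk, mk_eq]
    filter_upwards [(mk_ne_zero l).mp hx] with i hi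
    rw [H_of_ne hi]

lemma T3_mk (J : ∀ i, A i → A i → A i) (e x y z c : ∀ i, A i) :
    T3 (JP l J) (mk l e) (mk l x) (mk l y) (mk l z) (mk l c) =
      mk l (fun i => T3 (J i) (e i) (x i) (y i) (z i) (c i)) := by
  simp only [T3, mk_add, H_mk, mk_sub]

end

/-- If the third differences of the Hua maps of all torsion-free Hua systems vanish, they vanish
for all Hua systems without small torsion. -/
theorem T3_large (h0 : ∀ (A : Type) [AddCommGroup A],
      (∀ (n : ℕ) (a : A), n ≠ 0 → n • a = 0 → a = 0) → ∀ (J : A → A → A), JSys J →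
      ∀ e : A, e ≠ 0 → ∀ x y z c, T3 J e x y z c = 0) :
    ∃ N : ℕ, ∀ (A : Type) [AddCommGroup A],
      (∀ (n : ℕ) (a : A), n ≠ 0 → n ≤ N → n • a = 0 → a = 0) →
      ∀ (J : A → A → A), JSys J → ∀ e : A, e ≠ 0 → ∀ x y z c, T3 J e x y z c = 0 := by
  by_contra hcon
  push Not at hcon
  choose A iA hA J hJ e he x y z c hT using hcon
  set l : Ultrafilter ℕ := Filter.hyperfilter ℕ with hl
  refine absurd (h0 (UPr l A) ?_ (JP l J) (jsys l hJ) (mk l e) ?_ (mk l x) (mk l y) (mk l z)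
    (mk l c)) ?_
  · intro n a hn hf
    obtain ⟨f, rfl⟩ := mk_surj l a
    rw [mk_nsmul, mk_eq_zero] at hf
    rw [mk_eq_zero]
    have hbig : ∀ᶠ i in (l : Filter ℕ), n ≤ i := by
      have h1 : ∀ᶠ i in (Filter.atTop : Filter ℕ), n ≤ i := Filter.eventually_ge_atTop n
      have h2 : (l : Filter ℕ) ≤ Filter.atTop := by
        rw [hl, ← Nat.cofinite_eq_atTop]
        exact Filter.hyperfilter_le_cofinite
      exact h2 h1
    filter_upwards [hf, hbig] with i h1 h2
    exact hA i n (f i) hn h2 h1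
  · rw [mk_ne_zero]
    exact Filter.Eventually.of_forall he
  · rw [T3_mk]
    exact (mk_ne_zero l).mpr (Filter.Eventually.of_forall hT)

end Pool.Agent.HuaUltra87
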