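import Mathlib
import Pool.Agent.HuaUltra87.Prod
import Pool.Agent.HuaKey73.Final

/-!
# Hua systems without small torsion
-/

set_option autoImplicit false

open scoped TensorProduct

namespace Pool.Agent.HuaUltra87

open Pool.Agent.HuaVal Pool.Agent.HuaOne84 Pool.Agent.HuaDom91

section

variable {A : Type} [AddCommGroup A] {J : A → A → A} (hJ : JSys J) {e : A} (he : e ≠ 0)

include hJ in
lemma T3_of_from (j : A → Option A → Option A)
    (hjJ : ∀ a b : A, a ≠ 0 → b ≠ 0 → j a (some b) = some (J a b)) (hF : FromJordan j)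
    (he : e ≠ 0) (x y z c : A) : T3 J e x y z c = 0 := by
  obtain ⟨one, U, ⟨h1, h2, h3⟩, -, hbij, hjU⟩ := hF
  have hJU : ∀ a b d : A, a ≠ 0 → b ≠ 0 → U b d = b → J a b = U a d := by
    intro a b d ha hb hd
    have h := hjU a b d ha hb hd
    rw [hjJ a b ha hb] at h
    exact Option.some_injective _ h
  have hH : ∃ k : A, ∀ x, H J e x c = U x k := by
    by_cases hc : c = 0
    · refine ⟨0, fun x => ?_⟩
      rw [hc, H_zero_right hJ he, map_zero]
    obtain ⟨ci, hci⟩ := (hbij c hc).2 c
    obtain ⟨k, hk⟩ := (hbij e he).2 c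
    have hci0 : ci ≠ 0 := by
      intro h0
      rw [h0, map_zero] at hci
      exact hc hci.symm
    refine ⟨k, fun x => ?_⟩
    by_cases hx : x = 0
    · rw [hx, H_zero_left, QuadraticMap.map_zero, LinearMap.zero_apply]
    have e1 : J e c = U e ci := hJU e c ci he hc hci
    have e2 : U ci c = ci := by
      apply (hbij c hc).1
      rw [hci]
      have h5 := congrArg (fun f : Module.End ℤ A => f ci) (h3 c ci)
      simp only [Module.End.mul_apply] at h5
      rw [hci, hci] at h5
      exact h5.symm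
    have hne : J e c ≠ 0 := J_ne_zero hJ he hc
    rw [H_of_ne hx]
    apply hJU x (J e c) k hx hne
    rw [e1, h3]
    simp only [Module.End.mul_apply]
    rw [hk, e2]
  obtain ⟨k, hk⟩ := hH
  simp only [T3, hk]
  have hadd : ∀ x y, U (x + y) = U x + U y + QuadraticMap.polar (⇑U) x y :=
    fun x y => QuadraticMap.map_add _ _ _
  rw [hadd (x + y) z, QuadraticMap.polar_add_left, hadd x y, hadd x z, hadd y z]
  simp only [LinearMap.add_apply]
  abel

end

open Pool.Agent.HuaPair25 Pool.Agent.HuaKey73 in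
/-- the torsion-free case, for the maps `J` -/
theorem torsion_free_T3 (A : Type) [AddCommGroup A]
    (hA : ∀ (n : ℕ) (a : A), n ≠ 0 → n • a = 0 → a = 0)
    (J : A → A → A) (hJ : JSys J) (e : A) (he : e ≠ 0) (x y z c : A) : T3 J e x y z c = 0 := by
  set j : A → Option A → Option A := fun a => Option.map (J a) with hj
  have hjJ : ∀ a b : A, a ≠ 0 → b ≠ 0 → j a (some b) = some (J a b) := fun a b _ _ => rfl
  by_cases hn : FromJordan j
  · exact T3_of_from hJ j hjJ hn he x y z c
  obtain ⟨P, R, hP, hxR, hPp, hRp, e1, e2⟩ := exists_closed_pair A hA j hJ hjJ he he hn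
  obtain ⟨a, ha⟩ : ∃ a, a ∉ P := by
    by_contra hno
    apply hP
    rw [eq_top_iff]
    intro y _
    by_contra hy
    exact hno ⟨y, hy⟩
  have ha0 : a ≠ 0 := CP.ne_zero ha
  have hcp : CP (toHS hJ e he) P R := by
    have h1 := cp_rho (toHS hJ e he) R
    rw [← e1, ← e2] at h1
    exact h1
  have hcp' := hcp.iso ha0
  have hx' : (toHS hJ e he).U a e ∉ R.comap ((toHS hJ e he).U ((toHS hJ e he).inv a)) := by
    intro h1
    apply hxR
    change (toHS hJ e he).U ((toHS hJ e he).inv a) ((toHS hJ e he).U a e) ∈ R at h1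
    rwa [(toHS hJ e he).U_inv_left a _ ha0] at h1
  have hR' : IsPure (R.comap ((toHS hJ e he).U ((toHS hJ e he).inv a))) := by
    intro n b hn' hb
    change (toHS hJ e he).U ((toHS hJ e he).inv a) (n • b) ∈ R at hb
    rw [map_nsmul] at hb
    exact hRp n _ hn' hb
  exact T3_of_pair hA hJ ha0 hcp' ha hx' hR' e he x y z c

/-- There is a bound `N` such that every Hua system without torsion up to `N` comes from a
quadratic Jordan division ring. -/
theorem almost_all : ∃ N : ℕ, ∀ (A : Type) [AddCommGroup A], Nontrivial A →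
    (∀ (n : ℕ) (a : A), n ≠ 0 → n ≤ N → n • a = 0 → a = 0) →
    ∀ j : A → Option A → Option A, IsHua j → FromJordan j := by
  obtain ⟨N, hN⟩ := T3_large torsion_free_T3
  refine ⟨max N 3, ?_⟩
  intro A _ hn hA j hj
  obtain ⟨J, hJ, hjJ⟩ := exists_J hj
  obtain ⟨e, he⟩ := exists_ne (0 : A)
  have h2 : ∀ a : A, a + a = 0 → a = 0 := by
    intro a ha
    apply hA 2 a (by norm_num) (by omega)
    rw [two_nsmul]; exact ha
  have h3 : ∀ a : A, a + a + a = 0 → a = 0 := by
    intro a ha
    apply hA 3 a (by norm_num) (by omega)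
    rw [← ha]
    abel
  exact jordan_of_T3 h2 h3 j hJ hjJ
    (hN A (fun n a hn hle h => hA n a hn (by omega) h) J hJ) he

end Pool.Agent.HuaUltra87
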